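import Pool.Agent.N563.LSP.Stm
set_option autoImplicit false

/-! # Project LSP (helper563), part KER: kernels of Lipschitz multipliers -/

open MeasureTheory Set
open scoped ENNReal

namespace Pool.Agent.N832.LSP

open Pool.Agent.TH280.LS Pool.Agent.N563.LSP

/-- the kernel -/
noncomputable def Kx (M : ℝ → ℂ) (x : ℝ) : ℂ := ∫ ξ : ℝ, e (x * ξ) * M ξ

lemma Kx_cont {M : ℝ → ℂ} (h : Integrable M) : Continuous (Kx M) := by
  have : Kx M = fun x => ft M (-x) := by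
    funext x
    unfold Kx ft
    refine integral_congr_ae (Filter.Eventually.of_forall fun ξ => ?_)
    change e (x * ξ) * M ξ = e (-(ξ * -x)) * M ξ
    congr 2; ring
  rw [this]
  exact (continuous_ft h).comp continuous_neg

lemma sq_bound {D : ℝ → ℂ} {b r : ℝ} (_hr : 0 ≤ r) (h1 : ∀ ξ, ‖D ξ‖ ≤ b)
    (h2 : ∀ ξ, r < |ξ| → D ξ = 0) :
    ∫⁻ ξ, ‖D ξ‖ₑ ^ 2 ≤ ENNReal.ofReal (2 * r * b ^ 2) := by
  calc ∫⁻ ξ, ‖D ξ‖ₑ ^ 2 ≤
        ∫⁻ ξ, (Icc (-r) r).indicator (fun _ => ENNReal.ofReal (b ^ 2)) ξ := by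
        apply lintegral_mono
        intro ξ
        by_cases hξ : ξ ∈ Icc (-r) r
        · rw [indicator_of_mem hξ]
          show ‖D ξ‖ₑ ^ 2 ≤ ENNReal.ofReal (b ^ 2)
          rw [← ofReal_norm, ← ENNReal.ofReal_pow (norm_nonneg _)]
          exact ENNReal.ofReal_le_ofReal (pow_le_pow_left₀ (norm_nonneg _) (h1 ξ) 2)
        · have : D ξ = 0 := h2 ξ (by
            by_contra hcon
            exact hξ (abs_le.1 (not_lt.1 hcon)))
          simp [this]
    _ = ENNReal.ofReal (b ^ 2) * ENNReal.ofReal (2 * r) := by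
        rw [lintegral_indicator measurableSet_Icc, setLIntegral_const, Real.volume_Icc]
        congr 2; ring
    _ = ENNReal.ofReal (2 * r * b ^ 2) := by
        rw [← ENNReal.ofReal_mul (by positivity)]
        congr 1; ring

lemma int_e {M : ℝ → ℂ} (hM : Integrable M) (x : ℝ) : Integrable fun ξ => e (x * ξ) * M ξ :=
  hM.mono ((continuous_e.comp (by fun_prop)).aestronglyMeasurable.mul hM.aestronglyMeasurable)
    (Filter.Eventually.of_forall fun ξ => by rw [norm_mul, norm_e, one_mul])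

lemma shift {M : ℝ → ℂ} (hM : Integrable M) (h x : ℝ) :
    ∫ ξ : ℝ, e (x * ξ) * (M (ξ + h) - M ξ) = (e (-(x * h)) - 1) * Kx M x := by
  have h1 : ∫ ξ : ℝ, e (x * ξ) * M (ξ + h) = e (-(x * h)) * Kx M x := by
    have e1 := integral_add_right_eq_self (μ := (volume : Measure ℝ))
      (fun ξ => e (x * (ξ - h)) * M ξ) h
    have e2 : (fun ξ => e (x * (ξ - h)) * M ξ) = fun ξ => e (-(x * h)) * (e (x * ξ) * M ξ) := by
      funext ξ
      rw [show x * (ξ - h) = -(x * h) + x * ξ by ring, e_add, mul_assoc]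
    rw [e2, integral_const_mul] at e1
    unfold Kx
    rw [← e1]
    refine integral_congr_ae (Filter.Eventually.of_forall fun ξ => ?_)
    show e (x * ξ) * M (ξ + h) = e (x * (ξ + h - h)) * M (ξ + h)
    rw [add_sub_cancel_right]
  have h2 : ∀ ξ, e (x * ξ) * (M (ξ + h) - M ξ) = e (x * ξ) * M (ξ + h) - e (x * ξ) * M ξ :=
    fun ξ => by ring
  simp_rw [h2]
  rw [integral_sub (int_e (hM.comp_add_right h) x) (int_e hM x), h1]
  unfold Kx
  ring

lemma e_lower {y : ℝ} (hy : |y| ≤ 1 / 2) : 4 * |y| ≤ ‖e y - 1‖ := by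
  have h1 : ‖e y - 1‖ = 2 * |Real.sin (Real.pi * y)| := by
    unfold e
    rw [mul_comm, Complex.norm_exp_I_mul_ofReal_sub_one, Real.norm_eq_abs, abs_mul,
      abs_of_pos (by norm_num : (0 : ℝ) < 2)]
    congr 3; ring
  have hpi := Real.pi_pos
  have h2 := Real.mul_abs_le_abs_sin (x := Real.pi * y) (by
    rw [abs_mul, abs_of_pos hpi]
    nlinarith)
  rw [abs_mul, abs_of_pos hpi] at h2
  have h3 : 2 / Real.pi * (Real.pi * |y|) = 2 * |y| := by field_simp
  rw [h3] at h2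
  rw [h1]
  linarith

lemma weight {M : ℝ → ℂ} {R L h : ℝ} (hM : Integrable M) (hc : Continuous M) (hR : 0 < R)
    (hL : 0 < L) (hLip : ∀ ξ ξ', ‖M ξ - M ξ'‖ ≤ L * |ξ - ξ'|) (hs : ∀ ξ, R < |ξ| → M ξ = 0)
    (hh : 0 < h) (hhR : h ≤ R) :
    ∫⁻ x in Icc (-(1 / (2 * h))) (1 / (2 * h)), ENNReal.ofReal (x ^ 2) * ‖Kx M x‖ₑ ^ 2 ≤
      ENNReal.ofReal (R * L ^ 2 / 4) := by
  obtain ⟨D, hD⟩ : ∃ D : ℝ → ℂ, D = fun ξ => M (ξ + h) - M ξ := ⟨_, rfl⟩
  have hDc : Continuous D := by rw [hD]; fun_prop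
  have hDs : ∀ ξ, R + h < |ξ| → D ξ = 0 := by
    intro ξ hξ
    have a1 : |ξ| ≤ |ξ + h| + h := by
      calc |ξ| = |(ξ + h) - h| := by congr 1; ring
        _ ≤ |ξ + h| + |h| := abs_sub _ _
        _ = |ξ + h| + h := by rw [abs_of_pos hh]
    rw [hD]
    show M (ξ + h) - M ξ = 0
    rw [hs (ξ + h) (by linarith), hs ξ (by linarith), sub_zero]
  have hDb : ∀ ξ, ‖D ξ‖ ≤ L * h := by
    intro ξ
    rw [hD]
    refine (hLip (ξ + h) ξ).trans (le_of_eq ?_)
    rw [add_sub_cancel_left, abs_of_pos hh]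
  have hDk : HasCompactSupport D := HasCompactSupport.intro (K := Icc (-(R + h)) (R + h))
    isCompact_Icc fun ξ hξ => hDs ξ (by
      by_contra hcon
      exact hξ (abs_le.1 (not_lt.1 hcon)))
  have hpl := ift_planch D (hDc.integrable_of_hasCompactSupport hDk)
    (hDc.memLp_of_hasCompactSupport hDk)
  have hb := sq_bound (by linarith : (0 : ℝ) ≤ R + h) hDb hDs
  rw [← hpl] at hb
  have hkey : ∀ x, ∫ ξ : ℝ, e (x * ξ) * D ξ = (e (-(x * h)) - 1) * Kx M x := by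
    intro x
    rw [hD]
    exact shift hM h x
  simp_rw [hkey] at hb
  have ha0 : ENNReal.ofReal (16 * h ^ 2) ≠ 0 := by
    rw [Ne, ENNReal.ofReal_eq_zero, not_le]; positivity
  rw [← ENNReal.mul_le_mul_iff_right ha0 ENNReal.ofReal_ne_top]
  calc ENNReal.ofReal (16 * h ^ 2) *
        ∫⁻ x in Icc (-(1 / (2 * h))) (1 / (2 * h)), ENNReal.ofReal (x ^ 2) * ‖Kx M x‖ₑ ^ 2
      = ∫⁻ x in Icc (-(1 / (2 * h))) (1 / (2 * h)),
          ENNReal.ofReal (16 * h ^ 2) * (ENNReal.ofReal (x ^ 2) * ‖Kx M x‖ₑ ^ 2) := by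
        rw [lintegral_const_mul' _ _ ENNReal.ofReal_ne_top]
    _ ≤ ∫⁻ x in Icc (-(1 / (2 * h))) (1 / (2 * h)), ‖(e (-(x * h)) - 1) * Kx M x‖ₑ ^ 2 := by
        apply setLIntegral_mono' measurableSet_Icc
        intro x hx
        rw [← mul_assoc, enorm_mul, mul_pow]
        gcongr
        rw [← ENNReal.ofReal_mul (by positivity), ← ofReal_norm,
          ← ENNReal.ofReal_pow (norm_nonneg _)]
        apply ENNReal.ofReal_le_ofReal
        have hx' : |x| ≤ 1 / (2 * h) := abs_le.2 hx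
        have h1 : |-(x * h)| ≤ 1 / 2 := by
          rw [abs_neg, abs_mul, abs_of_pos hh]
          rw [le_div_iff₀ (by positivity)] at hx'
          linarith
        have h2 := e_lower h1
        rw [abs_neg, abs_mul, abs_of_pos hh] at h2
        calc 16 * h ^ 2 * x ^ 2 = (4 * (|x| * h)) ^ 2 := by rw [mul_pow, mul_pow, sq_abs]; ring
          _ ≤ ‖e (-(x * h)) - 1‖ ^ 2 := pow_le_pow_left₀ (by positivity) h2 2
    _ ≤ ∫⁻ x, ‖(e (-(x * h)) - 1) * Kx M x‖ₑ ^ 2 := setLIntegral_le_lintegral _ _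
    _ ≤ ENNReal.ofReal (2 * (R + h) * (L * h) ^ 2) := hb
    _ ≤ ENNReal.ofReal (16 * h ^ 2) * ENNReal.ofReal (R * L ^ 2 / 4) := by
        rw [← ENNReal.ofReal_mul (by positivity)]
        apply ENNReal.ofReal_le_ofReal
        have : 0 ≤ (R - h) * (L * h) ^ 2 := mul_nonneg (by linarith) (by positivity)
        nlinarith

lemma weight_all {M : ℝ → ℂ} {R L : ℝ} (hM : Integrable M) (hc : Continuous M) (hR : 0 < R)
    (hL : 0 < L) (hLip : ∀ ξ ξ', ‖M ξ - M ξ'‖ ≤ L * |ξ - ξ'|) (hs : ∀ ξ, R < |ξ| → M ξ = 0) :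
    ∫⁻ x, ENNReal.ofReal (x ^ 2) * ‖Kx M x‖ₑ ^ 2 ≤ ENNReal.ofReal (R * L ^ 2 / 4) := by
  obtain ⟨n0, hn0⟩ := exists_nat_ge (1 / (2 * R))
  obtain ⟨s, hsd⟩ : ∃ s : ℕ → Set ℝ, s = fun n : ℕ => Icc (-((n : ℝ) + n0 + 1)) ((n : ℝ) + n0 + 1) :=
    ⟨_, rfl⟩
  have hmono : Monotone s := by
    intro a b hab
    have : (a : ℝ) ≤ b := by exact_mod_cast hab
    rw [hsd]
    exact Icc_subset_Icc (by linarith) (by linarith)
  have hU : ⋃ n, s n = univ := by
    rw [eq_univ_iff_forall]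
    intro x
    obtain ⟨n, hn⟩ := exists_nat_ge |x|
    rw [mem_iUnion]
    refine ⟨n, ?_⟩
    rw [hsd]
    have h0 : (0 : ℝ) ≤ n0 := Nat.cast_nonneg _
    have := abs_le.1 (hn.trans (by linarith : (n : ℝ) ≤ (n : ℝ) + n0 + 1))
    exact this
  rw [← setLIntegral_univ, ← hU, setLIntegral_iUnion_of_directed _ hmono.directed_le]
  refine iSup_le fun n => ?_
  obtain ⟨T, hT⟩ : ∃ T : ℝ, T = (n : ℝ) + n0 + 1 := ⟨_, rfl⟩
  have hT0 : 0 < T := by rw [hT]; positivity
  have h1 : 1 / (2 * (1 / (2 * T))) = T := by field_simp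
  have h2 : 1 / (2 * T) ≤ R := by
    have h3 : 1 / (2 * R) ≤ T := hn0.trans (by
      rw [hT]
      have : (0 : ℝ) ≤ n := Nat.cast_nonneg _
      linarith)
    rw [div_le_iff₀ (by positivity)] at h3 ⊢
    linarith
  have h3 := weight hM hc hR hL hLip hs (h := 1 / (2 * T)) (by positivity) h2
  rw [h1] at h3
  rw [hsd]
  show ∫⁻ x in Icc (-((n : ℝ) + n0 + 1)) ((n : ℝ) + n0 + 1), _ ≤ _
  rw [← hT]
  exact h3

theorem ker_ : S_KER := by
  refine ⟨4, by norm_num, ?_⟩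
  intro R B L M hR hB hL hb hLip hs
  have hc : Continuous M := by
    have : LipschitzWith (Real.toNNReal L) M := LipschitzWith.of_dist_le_mul fun x y => by
      rw [dist_eq_norm, Real.dist_eq, Real.coe_toNNReal _ hL.le]
      exact hLip x y
    exact this.continuous
  have hk : HasCompactSupport M := HasCompactSupport.intro (K := Icc (-R) R)
    isCompact_Icc fun ξ hξ => hs ξ (by
      by_contra hcon
      exact hξ (abs_le.1 (not_lt.1 hcon)))
  have hM : Integrable M := hc.integrable_of_hasCompactSupport hk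
  have h1 : ∫⁻ x, ‖Kx M x‖ₑ ^ 2 ≤ ENNReal.ofReal (2 * R * B ^ 2) := by
    refine (le_of_eq ?_).trans (sq_bound hR.le hb hs)
    exact ift_planch M hM (hc.memLp_of_hasCompactSupport hk)
  have h2 := weight_all hM hc hR hL hLip hs
  have hKc := Kx_cont hM
  obtain ⟨w, hw⟩ : ∃ w : ℝ → ℝ, w = fun x => 1 + (B / L * x) ^ 2 := ⟨_, rfl⟩
  have hwc : Continuous w := by rw [hw]; fun_prop
  have hw1 : ∀ x, 1 ≤ w x := by
    intro x
    rw [hw]
    have : 0 ≤ (B / L * x) ^ 2 := by positivity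
    show 1 ≤ 1 + (B / L * x) ^ 2
    linarith
  have hw0 : ∀ x, 0 < w x := fun x => by linarith [hw1 x]
  -- the two integrals
  have hf : ∫⁻ x, ENNReal.ofReal (Real.sqrt (w x)⁻¹) ^ (2 : ℝ) =
      ENNReal.ofReal (L / B * Real.pi) := by
    have e1 : ∀ x, ENNReal.ofReal (Real.sqrt (w x)⁻¹) ^ (2 : ℝ) = ENNReal.ofReal (w x)⁻¹ := by
      intro x
      rw [ENNReal.rpow_ofNat, ← ENNReal.ofReal_pow (Real.sqrt_nonneg _),
        Real.sq_sqrt (inv_nonneg.2 (hw0 x).le)]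
    simp_rw [e1]
    have e2 : Integrable fun x => (w x)⁻¹ := by
      rw [hw]
      exact integrable_inv_one_add_sq.comp_mul_left' (by positivity)
    rw [← ofReal_integral_eq_lintegral_ofReal e2
      (Filter.Eventually.of_forall fun x => inv_nonneg.2 (hw0 x).le)]
    congr 1
    rw [hw]
    have e3 := Measure.integral_comp_mul_left (fun x : ℝ => (1 + x ^ 2)⁻¹) (B / L)
    rw [integral_univ_inv_one_add_sq, abs_of_pos (by positivity), smul_eq_mul, inv_div] at e3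
    exact e3
  have hg : ∫⁻ x, (ENNReal.ofReal (Real.sqrt (w x)) * ‖Kx M x‖ₑ) ^ (2 : ℝ) ≤
      ENNReal.ofReal (3 * R * B ^ 2) := by
    have e1 : ∀ x, (ENNReal.ofReal (Real.sqrt (w x)) * ‖Kx M x‖ₑ) ^ (2 : ℝ) =
        ‖Kx M x‖ₑ ^ 2 + ENNReal.ofReal ((B / L) ^ 2) * (ENNReal.ofReal (x ^ 2) * ‖Kx M x‖ₑ ^ 2) := by
      intro x
      rw [ENNReal.rpow_ofNat, mul_pow, ← ENNReal.ofReal_pow (Real.sqrt_nonneg _),
        Real.sq_sqrt (hw0 x).le, hw, ENNReal.ofReal_add (by norm_num) (by positivity), mul_pow,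
        ENNReal.ofReal_mul (by positivity), ENNReal.ofReal_one, add_mul, one_mul, mul_assoc]
    simp_rw [e1]
    rw [lintegral_add_left (by fun_prop), lintegral_const_mul' _ _ ENNReal.ofReal_ne_top]
    calc _ ≤ ENNReal.ofReal (2 * R * B ^ 2) +
          ENNReal.ofReal ((B / L) ^ 2) * ENNReal.ofReal (R * L ^ 2 / 4) := by gcongr
      _ = ENNReal.ofReal (2 * R * B ^ 2 + (B / L) ^ 2 * (R * L ^ 2 / 4)) := by
          rw [← ENNReal.ofReal_mul (by positivity), ← ENNReal.ofReal_add (by positivity)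
            (by positivity)]
      _ ≤ ENNReal.ofReal (3 * R * B ^ 2) := by
          apply ENNReal.ofReal_le_ofReal
          have : (B / L) ^ 2 * (R * L ^ 2 / 4) = R * B ^ 2 / 4 := by field_simp
          rw [this]
          have : 0 ≤ R * B ^ 2 := by positivity
          linarith
  have hcs := ENNReal.lintegral_mul_le_Lp_mul_Lq (volume : Measure ℝ)
    (Real.HolderConjugate.two_two)
    (f := fun x => ENNReal.ofReal (Real.sqrt (w x)⁻¹))
    (g := fun x => ENNReal.ofReal (Real.sqrt (w x)) * ‖Kx M x‖ₑ)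
    (by
      have : Continuous fun x => (w x)⁻¹ := hwc.inv₀ fun x => (hw0 x).ne'
      exact (ENNReal.measurable_ofReal.comp (Real.continuous_sqrt.comp this).measurable).aemeasurable)
    (by
      have : Measurable fun x => ENNReal.ofReal (Real.sqrt (w x)) :=
        ENNReal.measurable_ofReal.comp (Real.continuous_sqrt.comp hwc).measurable
      exact (this.mul hKc.measurable.enorm).aemeasurable)
  have hlhs : ∫⁻ x, ((fun x => ENNReal.ofReal (Real.sqrt (w x)⁻¹)) *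
      fun x => ENNReal.ofReal (Real.sqrt (w x)) * ‖Kx M x‖ₑ) x = ∫⁻ x, ‖Kx M x‖ₑ := by
    refine lintegral_congr fun x => ?_
    show ENNReal.ofReal (Real.sqrt (w x)⁻¹) * (ENNReal.ofReal (Real.sqrt (w x)) * ‖Kx M x‖ₑ) = _
    rw [← mul_assoc, ← ENNReal.ofReal_mul (Real.sqrt_nonneg _), Real.sqrt_inv,
      inv_mul_cancel₀ (Real.sqrt_pos.2 (hw0 x)).ne', ENNReal.ofReal_one, one_mul]
  rw [hlhs, hf] at hcs
  show ∫⁻ x, ‖Kx M x‖ₑ ≤ _
  refine hcs.trans ?_
  calc ENNReal.ofReal (L / B * Real.pi) ^ (1 / 2 : ℝ) *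
        (∫⁻ x, (ENNReal.ofReal (Real.sqrt (w x)) * ‖Kx M x‖ₑ) ^ (2 : ℝ)) ^ (1 / 2 : ℝ)
      ≤ ENNReal.ofReal (L / B * Real.pi) ^ (1 / 2 : ℝ) *
        ENNReal.ofReal (3 * R * B ^ 2) ^ (1 / 2 : ℝ) := by gcongr
    _ = ENNReal.ofReal (Real.sqrt (L / B * Real.pi * (3 * R * B ^ 2))) := by
        rw [ENNReal.ofReal_rpow_of_nonneg (by positivity) (by norm_num),
          ENNReal.ofReal_rpow_of_nonneg (by positivity) (by norm_num),
          ← ENNReal.ofReal_mul (by positivity), ← Real.sqrt_eq_rpow, ← Real.sqrt_eq_rpow,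
          ← Real.sqrt_mul (show 0 ≤ L / B * Real.pi by positivity)]
    _ ≤ ENNReal.ofReal (4 * Real.sqrt (R * B * L)) := by
        apply ENNReal.ofReal_le_ofReal
        have e1 : L / B * Real.pi * (3 * R * B ^ 2) = 3 * Real.pi * (R * B * L) := by
          field_simp
        rw [e1]
        have e2 : 4 * Real.sqrt (R * B * L) = Real.sqrt (16 * (R * B * L)) := by
          rw [Real.sqrt_mul (show (0 : ℝ) ≤ 16 by norm_num), show (16 : ℝ) = 4 ^ 2 by norm_num,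
            Real.sqrt_sq (show (0 : ℝ) ≤ 4 by norm_num)]
        rw [e2]
        apply Real.sqrt_le_sqrt
        apply mul_le_mul_of_nonneg_right _ (by positivity)
        linarith [Real.pi_le_four]

end Pool.Agent.N832.LSP
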